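import Pool.Agent.H493Z.FI.Coh

set_option autoImplicit false

open CategoryTheory Opposite Limits

noncomputable section

namespace Pool.Agent.H493Z.FI

variable {R : Type} [CommRing R] (m : Ideal R)

section rep
variable {K L : CochainComplex (ModuleCat.{0} R) ℕ}

def Rep (K : CochainComplex (ModuleCat.{0} R) ℕ) (i : ℕ) (z : K.X i) (e : K.homology i) : Prop :=
  ∃ w : K.cycles i, (K.iCycles i).hom w = z ∧ (K.homologyπ i).hom w = e

lemma rep_exists (i : ℕ) (e : K.homology i) : ∃ z, (K.d i (i + 1)).hom z = 0 ∧ Rep K i z e := by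
  obtain ⟨w, rfl⟩ := (ModuleCat.epi_iff_surjective (K.homologyπ i)).1 inferInstance e
  refine ⟨_, ?_, w, rfl, rfl⟩
  have := congrArg (fun g : K.cycles i ⟶ K.X (i + 1) => g.hom w) (K.iCycles_d i (i + 1))
  exact this

lemma rep_zero_iff {i : ℕ} {z : K.X i} {e : K.homology i} (h : Rep K i z e) :
    e = 0 ↔ ∃ y, (K.d ((ComplexShape.up ℕ).prev i) i).hom y = z := by
  obtain ⟨w, rfl, rfl⟩ := h
  have hti : ∀ y, (K.iCycles i).hom ((K.toCycles ((ComplexShape.up ℕ).prev i) i).hom y) =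
      (K.d ((ComplexShape.up ℕ).prev i) i).hom y := by
    intro y
    have := congrArg (fun g : K.X _ ⟶ K.X i => g.hom y) (K.toCycles_i ((ComplexShape.up ℕ).prev i) i)
    exact this
  constructor
  · intro h
    have hex := ShortComplex.exact_of_g_is_cokernel
      (ShortComplex.mk _ _ (K.toCycles_comp_homologyπ ((ComplexShape.up ℕ).prev i) i))
      (K.homologyIsCokernel _ i rfl)
    rw [ShortComplex.moduleCat_exact_iff] at hex
    obtain ⟨y, hy⟩ := hex w h
    exact ⟨y, by rw [← hti]; exact congrArg _ hy⟩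
  · rintro ⟨y, hy⟩
    have hinj := (ModuleCat.mono_iff_injective (K.iCycles i)).1 inferInstance
    have : w = (K.toCycles ((ComplexShape.up ℕ).prev i) i).hom y := hinj (by rw [hti, hy])
    rw [this]
    have := congrArg (fun g : K.X _ ⟶ K.homology i => g.hom y)
      (K.toCycles_comp_homologyπ ((ComplexShape.up ℕ).prev i) i)
    exact this

lemma rep_map (ψ : K ⟶ L) {i : ℕ} {z : K.X i} {e : K.homology i} (h : Rep K i z e) :
    Rep L i ((ψ.f i).hom z) ((HomologicalComplex.homologyMap ψ i).hom e) := by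
  obtain ⟨w, rfl, rfl⟩ := h
  refine ⟨(HomologicalComplex.cyclesMap ψ i).hom w, ?_, ?_⟩
  · have := congrArg (fun g : K.cycles i ⟶ L.X i => g.hom w) (HomologicalComplex.cyclesMap_i ψ i)
    exact this
  · have := congrArg (fun g : K.cycles i ⟶ L.homology i => g.hom w)
      (HomologicalComplex.homologyπ_naturality ψ i)
    exact this.symm

end rep

lemma homologyUnop_nat {V : Type*} [Category V] [Abelian V]
    {K L : ChainComplex Vᵒᵖ ℕ} (β : K ⟶ L) (i : ℕ) :
    HomologicalComplex.homologyMap ((HomologicalComplex.unopFunctor _ _).map β.op) i ≫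
      (K.homologyUnop i).hom =
      (L.homologyUnop i).hom ≫ (HomologicalComplex.homologyMap β i).unop := by
  have := HomologicalComplex.homologyOp_hom_naturality
    ((HomologicalComplex.unopFunctor _ _).map β.op) i
  exact (congrArg Quiver.Hom.unop this).symm

abbrev Fn (M : ModuleCat.{0} R) : ModuleCat.{0} R ⥤ (ModuleCat.{0} R)ᵒᵖ :=
  ((linearYoneda R (ModuleCat.{0} R)).obj M).rightOp

abbrev KK (t : ℕ) (M : ModuleCat.{0} R) : CochainComplex (ModuleCat.{0} R) ℕ :=
  (P m t).complex.linearYonedaObj R M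

def Kmap (t : ℕ) {M N : ModuleCat.{0} R} (φ : M ⟶ N) : KK m t M ⟶ KK m t N :=
  (HomologicalComplex.unopFunctor _ _).map
    ((NatTrans.mapHomologicalComplex ((linearYoneda R (ModuleCat.{0} R)).map φ).rightOp _).app
      (P m t).complex).op

def Ktr {s t : ℕ} (h : s ≤ t) (M : ModuleCat.{0} R) : KK m s M ⟶ KK m t M :=
  (HomologicalComplex.unopFunctor _ _).map
    (((Fn M).mapHomologicalComplex _).map (lam m h)).op

lemma Kmap_f (t : ℕ) {M N : ModuleCat.{0} R} (φ : M ⟶ N) (i : ℕ) (c : G m i M t) :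
    ((Kmap m t φ).f i).hom c = (c ≫ φ : G m i N t) := rfl

lemma Ktr_f {s t : ℕ} (h : s ≤ t) (M : ModuleCat.{0} R) (i : ℕ) (c : G m i M s) :
    ((Ktr m h M).f i).hom c = ((lam m h).f i ≫ c : G m i M t) := rfl

lemma KK_d (t : ℕ) (M : ModuleCat.{0} R) (i j : ℕ) (c : G m i M t) :
    ((KK m t M).d i j).hom c = ((P m t).complex.d j i ≫ c : G m j M t) := rfl

lemma abstract_nat {V : Type*} [Category V] {a a' b b' : Vᵒᵖ} {c c' : V} (i1 : a ≅ b)
    (i2 : a' ≅ b') (u1 : c ≅ unop b) (u2 : c' ≅ unop b') (f : a' ⟶ a) (g : b' ⟶ b) (k : c ⟶ c')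
    (h1 : i2.inv ≫ f = g ≫ i1.inv) (h2 : k ≫ u2.hom = u1.hom ≫ g.unop) :
    f.unop ≫ (i2.unop.symm ≪≫ u2.symm).hom = (i1.unop.symm ≪≫ u1.symm).hom ≫ k := by
  have h3 := congrArg Quiver.Hom.unop h1
  simp only [unop_comp] at h3
  simp only [Iso.trans_hom, Iso.symm_hom, Iso.unop_inv, Category.assoc]
  rw [← Category.assoc, h3, Category.assoc]
  congr 1
  rw [Iso.comp_inv_eq, Category.assoc, h2, Iso.inv_hom_id_assoc]

lemma isoExt_nat_M (t i : ℕ) {M N : ModuleCat.{0} R} (φ : M ⟶ N) :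
    ((Ext R (ModuleCat.{0} R) i).obj (op (Qt m t))).map φ ≫ ((P m t).isoExt i N).hom =
      ((P m t).isoExt i M).hom ≫ HomologicalComplex.homologyMap (Kmap m t φ) i := by
  have h1 := ProjectiveResolution.leftDerived_app_eq
    ((linearYoneda R (ModuleCat.{0} R)).map φ).rightOp (P m t) i
  have h2 := homologyUnop_nat ((NatTrans.mapHomologicalComplex
    ((linearYoneda R (ModuleCat.{0} R)).map φ).rightOp (ComplexShape.down ℕ)).app
      (P m t).complex) i
  rw [← Iso.inv_comp_eq] at h1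
  exact abstract_nat _ _ _ _ _ _ _ h1 h2

lemma isoExt_nat_t {s t : ℕ} (h : s ≤ t) (i : ℕ) (M : ModuleCat.{0} R) :
    ((Ext R (ModuleCat.{0} R) i).map (qm m h).op).app M ≫ ((P m t).isoExt i M).hom =
      ((P m s).isoExt i M).hom ≫ HomologicalComplex.homologyMap (Ktr m h M) i := by
  have h1 := ProjectiveResolution.isoLeftDerivedObj_inv_naturality (qm m h) (P m t) (P m s)
    (lam m h) (lam_comm m h) (Fn M) i
  have h2 := homologyUnop_nat (((Fn M).mapHomologicalComplex (ComplexShape.down ℕ)).map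
    (lam m h)) i
  exact abstract_nat _ _ _ _ _ _ _ h1 h2

abbrev Dg (i : ℕ) : ℕᵒᵖᵒᵖ ⥤ ModuleCat.{0} R ⥤ ModuleCat.{0} R :=
  localCohomology.diagram (localCohomology.idealPowersDiagram m) i

abbrev Ex (i t : ℕ) (M : ModuleCat.{0} R) : ModuleCat.{0} R :=
  ((Ext R (ModuleCat.{0} R) i).obj (op (Qt m t))).obj M

/-- the canonical map to local cohomology -/
def io (i t : ℕ) (M : ModuleCat.{0} R) : Ex m i t M ⟶ (localCohomology m i).obj M :=
  (colimit.ι (Dg m i) (op (op t))).app M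

lemma io_nat (i t : ℕ) {M N : ModuleCat.{0} R} (φ : M ⟶ N) :
    ((Ext R (ModuleCat.{0} R) i).obj (op (Qt m t))).map φ ≫ io m i t N =
      io m i t M ≫ (localCohomology m i).map φ :=
  (colimit.ι (Dg m i) (op (op t))).naturality φ

lemma io_tr (i : ℕ) {s t : ℕ} (h : s ≤ t) (M : ModuleCat.{0} R) :
    ((Ext R (ModuleCat.{0} R) i).map (qm m h).op).app M ≫ io m i t M = io m i s M :=
  congrArg (fun g => NatTrans.app g M) (colimit.w (Dg m i) (homOfLE h).op.op)

lemma io_iso (i t : ℕ) (M : ModuleCat.{0} R) :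
    io m i t M ≫ (colimitObjIsoColimitCompEvaluation (Dg m i) M).hom =
      colimit.ι (Dg m i ⋙ (evaluation _ _).obj M) (op (op t)) :=
  colimitObjIsoColimitCompEvaluation_ι_app_hom (Dg m i) (op (op t)) M

lemma io_surj (i : ℕ) (M : ModuleCat.{0} R) (x : (localCohomology m i).obj M) :
    ∃ t e, (io m i t M).hom e = x := by
  obtain ⟨j, e, he⟩ := Concrete.colimit_exists_rep (Dg m i ⋙ (evaluation _ _).obj M)
    ((colimitObjIsoColimitCompEvaluation (Dg m i) M).hom.hom x)
  refine ⟨j.unop.unop, e, ?_⟩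
  have hinj := (ModuleCat.mono_iff_injective
    (colimitObjIsoColimitCompEvaluation (Dg m i) M).hom).1 inferInstance
  refine hinj ?_
  exact (congrArg (fun g : Ex m i _ M ⟶ _ => g.hom e) (io_iso m i j.unop.unop M)).trans he

lemma io_zero (i t : ℕ) (M : ModuleCat.{0} R) (e : Ex m i t M) (he : (io m i t M).hom e = 0) :
    ∃ s, ∃ h : t ≤ s, (((Ext R (ModuleCat.{0} R) i).map (qm m h).op).app M).hom e = 0 := by
  have h1 : (colimit.ι (Dg m i ⋙ (evaluation _ _).obj M) (op (op t))).hom e = 0 := by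
    rw [← io_iso]
    show (colimitObjIsoColimitCompEvaluation (Dg m i) M).hom.hom ((io m i t M).hom e) = 0
    rw [he]
    exact map_zero _
  obtain ⟨j, f, hf⟩ := Concrete.colimit_rep_eq_zero (R := R)
    (Dg m i ⋙ (evaluation _ _).obj M) (op (op t)) e h1
  exact ⟨j.unop.unop, leOfHom f.unop.unop, hf⟩

lemma Bd_of_prev {i t : ℕ} {M : ModuleCat.{0} R} (y : G m ((ComplexShape.up ℕ).prev i) M t) :
    cof m t ((P m t).complex.d i ((ComplexShape.up ℕ).prev i) ≫ y) ∈ Bd m i M := by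
  cases i with
  | zero =>
    rw [HomologicalComplex.shape _ _ _ (by simp), zero_comp, map_zero]
    exact Submodule.zero_mem _
  | succ i =>
    have key : ∀ (j : ℕ) (_ : j = i) (y : G m j M t),
        cof m t ((P m t).complex.d (i + 1) j ≫ y) ∈ Bd m (i + 1) M := by
      rintro j rfl y
      exact ⟨cof m t y, dd_cof m t y⟩
    exact key _ (by simp) y

lemma prev_of_Bd {i t : ℕ} {M : ModuleCat.{0} R} (c : G m i M t) (hc : cof m t c ∈ Bd m i M) :
    ∃ s, ∃ h : t ≤ s, ∃ y : G m ((ComplexShape.up ℕ).prev i) M s,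
      (P m s).complex.d i ((ComplexShape.up ℕ).prev i) ≫ y = (lam m h).f i ≫ c := by
  cases i with
  | zero =>
    obtain ⟨s, h, e⟩ := cof_zero m hc
    exact ⟨s, h, 0, by rw [e, comp_zero]⟩
  | succ i =>
    have key : ∀ (j : ℕ) (_ : j = i), ∃ s, ∃ h : t ≤ s, ∃ y : G m j M s,
        (P m s).complex.d (i + 1) j ≫ y = (lam m h).f (i + 1) ≫ c := by
      rintro j rfl
      obtain ⟨y, hy⟩ := hc
      obtain ⟨r, y, rfl⟩ := cof_surj m y
      rw [dd_cof, ← cof_lam m (le_max_left r t), ← cof_lam m (le_max_right r t) c, ← sub_eq_zero,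
        ← map_sub] at hy
      obtain ⟨s, h, e⟩ := cof_zero m hy
      refine ⟨s, (le_max_right r t).trans h, (lam m ((le_max_left r t).trans h)).f j ≫ y, ?_⟩
      rw [Preadditive.comp_sub, sub_eq_zero] at e
      rw [lam_comp m (le_max_right r t) h, HomologicalComplex.comp_f, Category.assoc, ← e,
        ← Category.assoc, ← HomologicalComplex.Hom.comm, lam_comp m (le_max_left r t) h,
        HomologicalComplex.comp_f, Category.assoc, Category.assoc]
    exact key _ (by simp)

theorem injective_of_inj (i : ℕ) {M N : ModuleCat.{0} R} (φ : M ⟶ N) (hφ : Inj m i φ) :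
    Function.Injective ((localCohomology m i).map φ).hom := by
  rw [injective_iff_map_eq_zero]
  intro x hx
  obtain ⟨t, e, rfl⟩ := io_surj m i M x
  obtain ⟨z, hz, hr⟩ := rep_exists i (((P m t).isoExt i M).hom.hom e)
  have h1 : (io m i t N).hom
      ((((Ext R (ModuleCat.{0} R) i).obj (op (Qt m t))).map φ).hom e) = 0 :=
    (congrArg (fun g : Ex m i t M ⟶ _ => g.hom e) (io_nat m i t φ)).trans hx
  obtain ⟨s, h, h2⟩ := io_zero m i t N _ h1
  have r1 := rep_map (Ktr m h N) (rep_map (Kmap m t φ) hr)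
  have e1 := congrArg (fun g : Ex m i t M ⟶ _ => g.hom e) (isoExt_nat_M m t i φ)
  have e2 := congrArg (fun g : Ex m i t N ⟶ _ => g.hom
    ((((Ext R (ModuleCat.{0} R) i).obj (op (Qt m t))).map φ).hom e)) (isoExt_nat_t m h i N)
  simp only [ModuleCat.hom_comp, LinearMap.coe_comp, Function.comp_apply] at e1 e2
  rw [← e1, ← e2, h2, map_zero] at r1
  obtain ⟨y, hy⟩ := (rep_zero_iff r1).1 rfl
  have h3' : ∀ (z : G m i M t) (y : G m ((ComplexShape.up ℕ).prev i) N s),
      (P m t).complex.d (i + 1) i ≫ z = 0 →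
      (P m s).complex.d i ((ComplexShape.up ℕ).prev i) ≫ y = (lam m h).f i ≫ z ≫ φ →
      cof m t z ∈ Bd m i M := by
    intro z y hz e3
    refine hφ _ ?_ ?_
    · rw [dd_cof, hz, map_zero]
    · rw [cmap_cof, ← cof_lam m h]
      have := Bd_of_prev m (i := i) (t := s) (M := N) y
      rwa [e3] at this
  have h3 := h3' z y hz hy
  obtain ⟨s', h', y', hy'⟩ := prev_of_Bd m _ h3
  have r2 := rep_map (Ktr m h' M) hr
  have h4 := (rep_zero_iff r2).2 ⟨y', hy'⟩
  have e4 := congrArg (fun g : Ex m i t M ⟶ _ => g.hom e) (isoExt_nat_t m h' i M)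
  simp only [ModuleCat.hom_comp, LinearMap.coe_comp, Function.comp_apply] at e4
  rw [← e4] at h4
  have hinj := (ModuleCat.mono_iff_injective ((P m s').isoExt (R := R) i M).hom).1 inferInstance
  have h5 : (((Ext R (ModuleCat.{0} R) i).map (qm m h').op).app M).hom e = 0 :=
    hinj (by rw [map_zero]; exact h4)
  rw [← io_tr m i h' M]
  show (io m i s' M).hom ((((Ext R (ModuleCat.{0} R) i).map (qm m h').op).app M).hom e) = 0
  rw [h5, map_zero]

end Pool.Agent.H493Z.FI
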