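import Mathlib

set_option autoImplicit false

open CategoryTheory Opposite

noncomputable section

namespace Pool.Agent.H493Z.FI

variable {R : Type} [CommRing R] (m : Ideal R)

abbrev Qt (t : ℕ) : ModuleCat.{0} R := ModuleCat.of R (R ⧸ m ^ t)

def qm {s t : ℕ} (h : s ≤ t) : Qt m t ⟶ Qt m s :=
  ModuleCat.ofHom (Submodule.mapQ _ _ LinearMap.id (Ideal.pow_le_pow_right h))

lemma qm_mk {s t : ℕ} (h : s ≤ t) (r : R) :
    (qm m h).hom (Submodule.Quotient.mk r) = Submodule.Quotient.mk r := rfl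

lemma qm_self (t : ℕ) : qm m (le_refl t) = 𝟙 _ := by
  ext; rfl

lemma qm_comp {r s t : ℕ} (h1 : r ≤ s) (h2 : s ≤ t) : qm m (h1.trans h2) = qm m h2 ≫ qm m h1 := by
  ext; rfl

def P (t : ℕ) : ProjectiveResolution (Qt m t) := ProjectiveResolution.of _

def Lam : ℕᵒᵖ ⥤ ChainComplex (ModuleCat.{0} R) ℕ :=
  Functor.ofOpSequence (X := fun t => (P m t).complex)
    (fun t => ProjectiveResolution.lift (qm m (Nat.le_add_right t 1)) (P m (t + 1)) (P m t))

def lam {s t : ℕ} (h : s ≤ t) : (P m t).complex ⟶ (P m s).complex := (Lam m).map (homOfLE h).op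

lemma lam_self (t : ℕ) : lam m (le_refl t) = 𝟙 _ := (Lam m).map_id (op t)

lemma lam_comp {r s t : ℕ} (h1 : r ≤ s) (h2 : s ≤ t) :
    lam m (h1.trans h2) = lam m h2 ≫ lam m h1 :=
  (Lam m).map_comp (homOfLE h2).op (homOfLE h1).op

lemma lam_succ (t : ℕ) : lam m (Nat.le_add_right t 1) =
    ProjectiveResolution.lift (qm m (Nat.le_add_right t 1)) (P m (t + 1)) (P m t) :=
  Functor.ofOpSequence_map_homOfLE_succ _ t

/-- the augmentation -/
def aug (t : ℕ) : (P m t).complex.X 0 ⟶ Qt m t := (P m t).π.f 0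

lemma lam_comm {s t : ℕ} (h : s ≤ t) : (lam m h).f 0 ≫ aug m s = aug m t ≫ qm m h := by
  induction t, h using Nat.le_induction with
  | base => rw [lam_self, qm_self]; simp
  | succ t h ih =>
    rw [lam_comp m h (Nat.le_add_right t 1), qm_comp m h (Nat.le_add_right t 1),
      HomologicalComplex.comp_f, Category.assoc, ih, lam_succ, ← Category.assoc, ← Category.assoc]
    congr 1
    exact ProjectiveResolution.lift_commutes_zero _ _ _

abbrev G (i : ℕ) (M : ModuleCat.{0} R) (t : ℕ) : Type := (P m t).complex.X i ⟶ M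

def tr (i : ℕ) (M : ModuleCat.{0} R) (s t : ℕ) (h : s ≤ t) : G m i M s →ₗ[R] G m i M t :=
  Linear.leftComp R M ((lam m h).f i)

lemma tr_apply (i : ℕ) (M : ModuleCat.{0} R) (s t : ℕ) (h : s ≤ t) (c : G m i M s) :
    tr m i M s t h c = (lam m h).f i ≫ c := rfl

instance (i : ℕ) (M : ModuleCat.{0} R) : DirectedSystem (G m i M) fun s t h => tr m i M s t h where
  map_self := fun t c => by rw [tr_apply, lam_self]; simp
  map_map := fun r s t h1 h2 c => by
    rw [tr_apply, tr_apply, tr_apply, lam_comp m h1 h2]; simp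

/-- cochains -/
abbrev C (i : ℕ) (M : ModuleCat.{0} R) : Type := Module.DirectLimit (G m i M) (tr m i M)

def cof {i : ℕ} {M : ModuleCat.{0} R} (t : ℕ) : G m i M t →ₗ[R] C m i M :=
  Module.DirectLimit.of R ℕ (G m i M) (tr m i M) t

lemma cof_lam {i : ℕ} {M : ModuleCat.{0} R} {s t : ℕ} (h : s ≤ t) (c : G m i M s) :
    cof m t ((lam m h).f i ≫ c) = cof m s c :=
  Module.DirectLimit.of_f (f := tr m i M) (hij := h) (x := c)

lemma cof_surj {i : ℕ} {M : ModuleCat.{0} R} (x : C m i M) : ∃ t c, cof m t c = x :=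
  Module.DirectLimit.exists_of x

lemma cof_zero {i : ℕ} {M : ModuleCat.{0} R} {t : ℕ} {c : G m i M t} (h : cof m t c = 0) :
    ∃ s, ∃ h : t ≤ s, (lam m h).f i ≫ c = 0 :=
  Module.DirectLimit.of.zero_exact h

def cmap (i : ℕ) {M N : ModuleCat.{0} R} (φ : M ⟶ N) : C m i M →ₗ[R] C m i N :=
  Module.DirectLimit.map (fun t => Linear.rightComp R _ φ) (fun s t h => by
    ext c; simp [tr])

lemma cmap_cof {i : ℕ} {M N : ModuleCat.{0} R} (φ : M ⟶ N) (t : ℕ) (c : G m i M t) :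
    cmap m i φ (cof m t c) = cof m t (c ≫ φ) :=
  Module.DirectLimit.map_apply_of _ _ _

def dd (i : ℕ) (M : ModuleCat.{0} R) : C m i M →ₗ[R] C m (i + 1) M :=
  Module.DirectLimit.map (fun t => Linear.leftComp R M ((P m t).complex.d (i + 1) i))
    (fun s t h => by
      ext c
      simp [tr])

lemma dd_cof {i : ℕ} {M : ModuleCat.{0} R} (t : ℕ) (c : G m i M t) :
    dd m i M (cof m t c) = cof m t ((P m t).complex.d (i + 1) i ≫ c) :=
  Module.DirectLimit.map_apply_of _ _ _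

lemma dd_dd {i : ℕ} {M : ModuleCat.{0} R} (x : C m i M) : dd m (i + 1) M (dd m i M x) = 0 := by
  obtain ⟨t, c, rfl⟩ := cof_surj m x
  rw [dd_cof, dd_cof, ← Category.assoc, HomologicalComplex.d_comp_d, Limits.zero_comp, map_zero]

lemma dd_cmap {i : ℕ} {M N : ModuleCat.{0} R} (φ : M ⟶ N) (x : C m i M) :
    dd m i N (cmap m i φ x) = cmap m (i + 1) φ (dd m i M x) := by
  obtain ⟨t, c, rfl⟩ := cof_surj m x
  rw [cmap_cof, dd_cof, dd_cof, cmap_cof, Category.assoc]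

lemma cmap_comp {i : ℕ} {M N L : ModuleCat.{0} R} (φ : M ⟶ N) (ψ : N ⟶ L) (x : C m i M) :
    cmap m i (φ ≫ ψ) x = cmap m i ψ (cmap m i φ x) := by
  obtain ⟨t, c, rfl⟩ := cof_surj m x
  rw [cmap_cof, cmap_cof, cmap_cof, Category.assoc]

lemma cmap_smul_id {i : ℕ} {M : ModuleCat.{0} R} (f : R) (x : C m i M) :
    cmap m i (f • 𝟙 M) x = f • x := by
  obtain ⟨t, c, rfl⟩ := cof_surj m x
  rw [cmap_cof, ← map_smul]; simp

lemma cmap_id {i : ℕ} {M : ModuleCat.{0} R} (x : C m i M) : cmap m i (𝟙 M) x = x := by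
  obtain ⟨t, c, rfl⟩ := cof_surj m x
  rw [cmap_cof]; simp

lemma cmap_add {i : ℕ} {M N : ModuleCat.{0} R} (φ ψ : M ⟶ N) (x : C m i M) :
    cmap m i (φ + ψ) x = cmap m i φ x + cmap m i ψ x := by
  obtain ⟨t, c, rfl⟩ := cof_surj m x
  rw [cmap_cof, cmap_cof, cmap_cof, ← map_add]; simp

lemma cmap_zero {i : ℕ} {M N : ModuleCat.{0} R} (x : C m i M) :
    cmap m i (0 : M ⟶ N) x = 0 := by
  obtain ⟨t, c, rfl⟩ := cof_surj m x
  rw [cmap_cof]; simp

lemma cmap_inj {i : ℕ} {M N : ModuleCat.{0} R} (φ : M ⟶ N) (hφ : Function.Injective φ.hom)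
    (x : C m i M) (hx : cmap m i φ x = 0) : x = 0 := by
  obtain ⟨t, c, rfl⟩ := cof_surj m x
  rw [cmap_cof] at hx
  obtain ⟨s, h, e⟩ := cof_zero m hx
  have : Mono φ := (ModuleCat.mono_iff_injective φ).2 hφ
  rw [← Category.assoc] at e
  rw [← cof_lam m h, Limits.zero_of_comp_mono φ e, map_zero]

lemma cmap_surj {i : ℕ} {M N : ModuleCat.{0} R} (φ : M ⟶ N) (hφ : Function.Surjective φ.hom)
    (y : C m i N) : ∃ x, cmap m i φ x = y := by
  obtain ⟨t, c, rfl⟩ := cof_surj m y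
  have : Epi φ := (ModuleCat.epi_iff_surjective φ).2 hφ
  refine ⟨cof m t (Projective.factorThru c φ), ?_⟩
  rw [cmap_cof, Projective.factorThru_comp]

/-- short exact sequences of modules -/
structure SES {A B D : ModuleCat.{0} R} (u : A ⟶ B) (v : B ⟶ D) : Prop where
  inj : Function.Injective u.hom
  ex : Function.Exact u.hom v.hom
  surj : Function.Surjective v.hom

lemma SES.comp {A B D : ModuleCat.{0} R} {u : A ⟶ B} {v : B ⟶ D} (h : SES u v) : u ≫ v = 0 := by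
  ext a
  exact h.ex.apply_apply_eq_zero a

lemma SES.lift {A B D X : ModuleCat.{0} R} {u : A ⟶ B} {v : B ⟶ D} (h : SES u v) (c : X ⟶ B)
    (hc : c ≫ v = 0) : ∃ a : X ⟶ A, a ≫ u = c := by
  have hr : ∀ x, c.hom x ∈ LinearMap.range u.hom := by
    intro x
    have : v.hom (c.hom x) = 0 := by
      have := congrArg (fun g : X ⟶ D => g.hom x) hc
      simpa using this
    exact (h.ex _).1 this
  refine ⟨ModuleCat.ofHom ((LinearEquiv.ofInjective u.hom h.inj).symm.toLinearMap ∘ₗ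
    c.hom.codRestrict _ hr), ?_⟩
  ext x
  simp only [ModuleCat.hom_comp, ModuleCat.hom_ofHom, LinearMap.coe_comp, Function.comp_apply,
    LinearEquiv.coe_coe]
  exact LinearEquiv.ofInjective_symm_apply u.hom (h := h.inj) _

lemma cmap_ex {i : ℕ} {A B D : ModuleCat.{0} R} {u : A ⟶ B} {v : B ⟶ D} (h : SES u v)
    (y : C m i B) (hy : cmap m i v y = 0) : ∃ x, cmap m i u x = y := by
  obtain ⟨t, c, rfl⟩ := cof_surj m y
  rw [cmap_cof] at hy
  obtain ⟨s, hs, e⟩ := cof_zero m hy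
  rw [← Category.assoc] at e
  obtain ⟨a, ha⟩ := h.lift _ e
  exact ⟨cof m s a, by rw [cmap_cof, ha, cof_lam]⟩

lemma cmap_cmap {i : ℕ} {A B D : ModuleCat.{0} R} {u : A ⟶ B} {v : B ⟶ D} (h : SES u v)
    (x : C m i A) : cmap m i v (cmap m i u x) = 0 := by
  rw [← cmap_comp, h.comp, cmap_zero]

/-- coboundaries -/
def Bd : (i : ℕ) → (M : ModuleCat.{0} R) → Submodule R (C m i M)
  | 0, _ => ⊥
  | i + 1, M => LinearMap.range (dd m i M)

lemma mem_Bd_zero {M : ModuleCat.{0} R} (x : C m 0 M) : x ∈ Bd m 0 M ↔ x = 0 := Iff.rfl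

lemma mem_Bd_succ {i : ℕ} {M : ModuleCat.{0} R} (x : C m (i + 1) M) :
    x ∈ Bd m (i + 1) M ↔ ∃ y, dd m i M y = x := Iff.rfl

lemma dd_Bd {i : ℕ} {M : ModuleCat.{0} R} {x : C m i M} (h : x ∈ Bd m i M) : dd m i M x = 0 := by
  cases i with
  | zero => rw [(mem_Bd_zero m x).1 h, map_zero]
  | succ i => obtain ⟨y, rfl⟩ := h; exact dd_dd m y

lemma cmap_Bd {i : ℕ} {M N : ModuleCat.{0} R} (φ : M ⟶ N) {x : C m i M} (h : x ∈ Bd m i M) :
    cmap m i φ x ∈ Bd m i N := by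
  cases i with
  | zero => rw [(mem_Bd_zero m x).1 h, map_zero]; exact Submodule.zero_mem _
  | succ i => obtain ⟨y, rfl⟩ := h; exact ⟨_, dd_cmap m φ y⟩

lemma Bd_lift {i : ℕ} {M N : ModuleCat.{0} R} (φ : M ⟶ N) (hφ : Function.Surjective φ.hom)
    {y : C m i N} (h : y ∈ Bd m i N) : ∃ x ∈ Bd m i M, cmap m i φ x = y := by
  cases i with
  | zero => exact ⟨0, Submodule.zero_mem _, by rw [(mem_Bd_zero m y).1 h, map_zero]⟩
  | succ i =>
    obtain ⟨z, rfl⟩ := h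
    obtain ⟨x, rfl⟩ := cmap_surj m φ hφ z
    exact ⟨dd m i M x, ⟨x, rfl⟩, (dd_cmap m φ x).symm⟩

def Van (i : ℕ) (M : ModuleCat.{0} R) : Prop := ∀ x : C m i M, dd m i M x = 0 → x ∈ Bd m i M

def Inj (i : ℕ) {M N : ModuleCat.{0} R} (φ : M ⟶ N) : Prop :=
  ∀ x : C m i M, dd m i M x = 0 → cmap m i φ x ∈ Bd m i N → x ∈ Bd m i M

lemma Van.inj {i : ℕ} {M N : ModuleCat.{0} R} (h : Van m i M) (φ : M ⟶ N) : Inj m i φ :=
  fun x hx _ => h x hx

lemma inj_zero {M N : ModuleCat.{0} R} (φ : M ⟶ N) (hφ : Function.Injective φ.hom) :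
    Inj m 0 φ := fun x _ h => cmap_inj m φ hφ x h

section chase
variable {A B D A' B' D' : ModuleCat.{0} R} {u : A ⟶ B} {v : B ⟶ D} {u' : A' ⟶ B'} {v' : B' ⟶ D'}

lemma chase0 (h : SES u v) {i : ℕ} (x : C m (i + 1) A) (b : C m i B)
    (hb : dd m i B b = cmap m (i + 1) u x) (hc : cmap m i v b ∈ Bd m i D) :
    x ∈ Bd m (i + 1) A := by
  obtain ⟨b0, hb0, e⟩ := Bd_lift m v h.surj hc
  obtain ⟨a, ha⟩ := cmap_ex m h (b - b0) (by rw [map_sub, e, sub_self])
  refine ⟨a, ?_⟩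
  rw [← sub_eq_zero]
  refine cmap_inj m u h.inj _ ?_
  rw [map_sub, ← dd_cmap, ha, map_sub, hb, dd_Bd m hb0]; simp

lemma chaseV (h : SES u v) {i : ℕ} (hD : Van m i D) (x : C m (i + 1) A)
    (hu : cmap m (i + 1) u x ∈ Bd m (i + 1) B) : x ∈ Bd m (i + 1) A := by
  obtain ⟨b, hb⟩ := hu
  refine chase0 m h x b hb (hD _ ?_)
  rw [dd_cmap, hb, cmap_cmap m h]

lemma chaseA (h : SES u v) (h' : SES u' v') {α : A ⟶ A'} {β : B ⟶ B'} {γ : D ⟶ D'}
    (c1 : u ≫ β = α ≫ u') (c2 : v ≫ γ = β ≫ v') {i : ℕ} (hγ : Inj m i γ) (hB : Van m i B')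
    (x : C m (i + 1) A) (hα : cmap m (i + 1) α x ∈ Bd m (i + 1) A')
    (hu : cmap m (i + 1) u x ∈ Bd m (i + 1) B) : x ∈ Bd m (i + 1) A := by
  obtain ⟨b, hb⟩ := hu
  obtain ⟨y, hy⟩ := hα
  refine chase0 m h x b hb (hγ _ ?_ ?_)
  · rw [dd_cmap, hb, cmap_cmap m h]
  · have h1 : dd m i B' (cmap m i β b - cmap m i u' y) = 0 := by
      rw [map_sub, dd_cmap, dd_cmap, hb, hy, ← cmap_comp, ← cmap_comp, c1, sub_self]
    have h2 := cmap_Bd m v' (hB _ h1)
    rwa [map_sub, cmap_cmap m h', sub_zero, ← cmap_comp, ← c2, cmap_comp] at h2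

lemma van_left (h : SES u v) {i : ℕ} (hB : Van m (i + 1) B) (hD : Van m i D) :
    Van m (i + 1) A := fun x hx =>
  chaseV m h hD x (hB _ (by rw [dd_cmap, hx, map_zero]))

lemma van_left0 (h : SES u v) (hB : Van m 0 B) : Van m 0 A := fun x hx =>
  cmap_inj m u h.inj x (hB _ (by rw [dd_cmap, hx, map_zero]))

lemma van_mid (h : SES u v) {i : ℕ} (hA : Van m i A) (hD : Van m i D) : Van m i B := by
  intro x hx
  obtain ⟨b0, hb0, e⟩ := Bd_lift m v h.surj (hD (cmap m i v x) (by rw [dd_cmap, hx, map_zero]))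
  obtain ⟨a, ha⟩ := cmap_ex m h (x - b0) (by rw [map_sub, e, sub_self])
  have h1 : dd m i A a = 0 := by
    refine cmap_inj m u h.inj _ ?_
    rw [← dd_cmap, ha, map_sub, hx, dd_Bd m hb0, sub_self]
  have h2 := cmap_Bd m u (hA a h1)
  rw [ha] at h2
  simpa using Submodule.add_mem _ h2 hb0

lemma inj_left (h : SES u v) (h' : SES u' v') {α : A ⟶ A'} {β : B ⟶ B'} {γ : D ⟶ D'}
    (c1 : u ≫ β = α ≫ u') (c2 : v ≫ γ = β ≫ v') {i : ℕ} (hβ : Inj m (i + 1) β) (hγ : Inj m i γ)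
    (hB : Van m i B' ∨ Van m i D) : Inj m (i + 1) α := by
  intro x hx hα
  have hu : cmap m (i + 1) u x ∈ Bd m (i + 1) B := by
    refine hβ _ (by rw [dd_cmap, hx, map_zero]) ?_
    rw [← cmap_comp, c1, cmap_comp]
    exact cmap_Bd m u' hα
  rcases hB with hB | hD
  · exact chaseA m h h' c1 c2 hγ hB x hα hu
  · exact chaseV m h hD x hu

end chase

/-- passing to a level where the representative is an honest cocycle -/
lemma cocycle_rep {i : ℕ} {M : ModuleCat.{0} R} (x : C m i M) (hx : dd m i M x = 0) :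
    ∃ t, ∃ c : G m i M t, cof m t c = x ∧ (P m t).complex.d (i + 1) i ≫ c = 0 := by
  obtain ⟨t, c, rfl⟩ := cof_surj m x
  rw [dd_cof] at hx
  obtain ⟨s, h, e⟩ := cof_zero m hx
  refine ⟨s, (lam m h).f i ≫ c, cof_lam m h c, ?_⟩
  rw [← Category.assoc, ← HomologicalComplex.Hom.comm, Category.assoc, e]

lemma torsion {i : ℕ} {M : ModuleCat.{0} R} (x : C m i M) (hx : dd m i M x = 0) {f : R}
    (hf : f ∈ m) : ∃ n : ℕ, f ^ n • x ∈ Bd m i M := by
  obtain ⟨t, c, rfl, hc⟩ := cocycle_rep m x hx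
  refine ⟨t, ?_⟩
  have h0 : (f ^ t • 𝟙 (P m t).complex) ≫ (P m t).π = 0 := by
    apply HomologicalComplex.to_single_hom_ext
    have : f ^ t • 𝟙 (Qt m t) = 0 := by
      ext
      show f ^ t • (Submodule.Quotient.mk 1 : R ⧸ m ^ t) = 0
      rw [← Submodule.Quotient.mk_smul, Submodule.Quotient.mk_eq_zero]
      simpa using Ideal.pow_mem_pow hf t
    have e : f ^ t • aug m t = aug m t ≫ (f ^ t • 𝟙 (Qt m t)) := by simp
    rw [this, Limits.comp_zero] at e
    show (f ^ t • 𝟙 ((P m t).complex.X 0)) ≫ aug m t = 0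
    rw [Linear.smul_comp, Category.id_comp]
    exact e
  have H := ProjectiveResolution.liftHomotopyZero _ h0
  have e := H.comm i
  rw [← map_smul]
  have e2 : f ^ t • c = (f ^ t • 𝟙 (P m t).complex).f i ≫ c := by simp
  rw [e2, e, prevD_eq H.hom (show (ComplexShape.down ℕ).Rel (i + 1) i from rfl)]
  simp only [HomologicalComplex.zero_f, add_zero, Preadditive.add_comp, Category.assoc, hc,
    Limits.comp_zero]
  cases i with
  | zero =>
    rw [dNext_eq_zero _ _ (by simp)]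
    simp
  | succ i =>
    rw [dNext_eq H.hom (show (ComplexShape.down ℕ).Rel (i + 1) i from rfl)]
    exact ⟨cof m t (H.hom i (i + 1) ≫ c), by rw [dd_cof, Category.assoc]⟩

section deform
variable {X Y X' Y' : ModuleCat.{0} R} {g : X ⟶ X} {v : X ⟶ Y} {g' : X' ⟶ X'} {v' : X' ⟶ Y'}

lemma van_deform_aux {f : R} (hf : f ∈ m) (hg : g ≫ g = f • 𝟙 X) {i : ℕ}
    (key : ∀ x : C m i X, dd m i X x = 0 → cmap m i g x ∈ Bd m i X → x ∈ Bd m i X) :
    Van m i X := by
  intro x hx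
  obtain ⟨n, hn⟩ := torsion m x hx hf
  induction n generalizing x with
  | zero => simpa using hn
  | succ n ih =>
    refine ih x hx ?_
    have h1 : dd m i X (f ^ n • x) = 0 := by rw [map_smul, hx, smul_zero]
    refine key _ h1 (key _ (by rw [dd_cmap, h1, map_zero]) ?_)
    rw [← cmap_comp, hg, cmap_smul_id, smul_smul, ← pow_succ']
    exact hn

lemma van_deform (h : SES g v) {f : R} (hf : f ∈ m) (hg : g ≫ g = f • 𝟙 X) {i : ℕ}
    (hY : Van m i Y) : Van m (i + 1) X :=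
  van_deform_aux m hf hg fun x _ hu => chaseV m h hY x hu

lemma van_deform0 (h : SES g v) {f : R} (hf : f ∈ m) (hg : g ≫ g = f • 𝟙 X) : Van m 0 X :=
  van_deform_aux m hf hg fun x _ hu => cmap_inj m g h.inj x hu

lemma inj_deform {f : R} (hf : f ∈ m) (h : SES (f • 𝟙 X) v) (h' : SES g' v') {φ : X ⟶ X'}
    {γ : Y ⟶ Y'} (c1 : g' ≫ g' = f • 𝟙 X') (c2 : v ≫ γ = φ ≫ v') {i : ℕ} (hγ : Inj m i γ)
    (hB : Van m i X') : Inj m (i + 1) φ := by
  intro x hx hφ
  obtain ⟨n, hn⟩ := torsion m x hx hf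
  induction n with
  | zero => simpa using hn
  | succ n ih =>
    refine ih ?_
    refine chaseA m h h' (α := φ ≫ g') (β := φ) (γ := γ) ?_ c2 hγ hB _ ?_ ?_
    · rw [Category.assoc, c1]; simp
    · rw [cmap_comp]
      refine cmap_Bd m g' ?_
      rw [map_smul]
      exact Submodule.smul_mem _ _ hφ
    · rw [cmap_smul_id, smul_smul, ← pow_succ']
      exact hn

end deform

end Pool.Agent.H493Z.FI
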