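import Mathlib

set_option autoImplicit false

open CategoryTheory

namespace Pool.Agent.H493Z.FI

/-- The Frobenius map `r ↦ r ^ p` as an `R`-linear map `R → F_* R`, where `F_* R` is `R` viewed as
an `R`-module through the Frobenius endomorphism. -/
noncomputable def frobHom (p : ℕ) (R : Type) [CommRing R] [Fact p.Prime] [CharP R p] :
    ModuleCat.of R R ⟶ (ModuleCat.restrictScalars (frobenius R p)).obj (ModuleCat.of R R) :=
  ModuleCat.ofHom (Y := (ModuleCat.restrictScalars (frobenius R p)).obj (ModuleCat.of R R))
    { toFun := fun r => frobenius R p r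
      map_add' := fun a b => map_add (frobenius R p) a b
      map_smul' := fun a b => map_mul (frobenius R p) a b }

/-- `R` is F-injective: Frobenius `H^i_m(R) → H^i_m(F_* R)` is injective on every local
cohomology module (Mathlib's `localCohomology`) with support in the maximal ideal. -/
def FInjective (p : ℕ) (R : Type) [CommRing R] [IsLocalRing R] [Fact p.Prime] [CharP R p] : Prop :=
  ∀ i : ℕ, Function.Injective
    ((localCohomology (IsLocalRing.maximalIdeal R) i).map (frobHom p R)).hom

/-- The Frobenius power `I^[q]`. -/
def frobPow {R : Type} [CommRing R] (I : Ideal R) (q : ℕ) : Ideal R :=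
  Ideal.span ((fun a => a ^ q) '' (I : Set R))

/-- The Frobenius closure `I^F`. -/
def frobClosure (p : ℕ) {R : Type} [CommRing R] (I : Ideal R) : Set R :=
  {x | ∃ e : ℕ, x ^ p ^ e ∈ frobPow I (p ^ e)}

end Pool.Agent.H493Z.FI
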