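import Pool.Agent.H493Z.FI.Coh

set_option autoImplicit false

open CategoryTheory Opposite

noncomputable section

namespace Pool.Agent.H493Z.FI

variable {R : Type} [CommRing R] (m : Ideal R)

lemma extend_inj {A B J : ModuleCat.{0} R} [hJ : Module.Injective R J] {E : ModuleCat.{0} R}
    (e : E ⟶ A) (d : A ⟶ B) (hex : ∀ a, d.hom a = 0 → ∃ x, e.hom x = a) (c : A ⟶ J)
    (hc : e ≫ c = 0) : ∃ b : B ⟶ J, d ≫ b = c := by
  have hk : LinearMap.ker d.hom ≤ LinearMap.ker c.hom := by
    intro a ha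
    obtain ⟨x, rfl⟩ := hex a ha
    have := congrArg (fun g : E ⟶ J => g.hom x) hc
    simpa using this
  let c' : LinearMap.range d.hom →ₗ[R] J :=
    ((LinearMap.ker d.hom).liftQ c.hom hk) ∘ₗ d.hom.quotKerEquivRange.symm.toLinearMap
  obtain ⟨b, hb⟩ := hJ.out (LinearMap.range d.hom).subtype Subtype.val_injective c'
  refine ⟨ModuleCat.ofHom b, ?_⟩
  ext a
  have := hb ⟨d.hom a, a, rfl⟩
  simp only [Submodule.subtype_apply, c', LinearMap.coe_comp, Function.comp_apply,
    LinearEquiv.coe_coe, LinearMap.quotKerEquivRange_symm_apply_image, Submodule.mkQ_apply,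
    Submodule.liftQ_apply] at this
  simpa using this

lemma van_injective (J : ModuleCat.{0} R) [Module.Injective R J] (i : ℕ) : Van m (i + 1) J := by
  intro x hx
  obtain ⟨t, c, rfl, hc⟩ := cocycle_rep m x hx
  have hex := ((P m t).exact_succ i)
  rw [ShortComplex.moduleCat_exact_iff] at hex
  obtain ⟨b, hb⟩ := extend_inj ((P m t).complex.d (i + 2) (i + 1)) ((P m t).complex.d (i + 1) i)
    hex c hc
  exact ⟨cof m t b, by rw [dd_cof, hb]⟩

/-- `m`-power torsion modules -/
def Tors (M : ModuleCat.{0} R) : Prop := ∀ z : M, ∃ n : ℕ, ∀ r ∈ m ^ n, r • z = 0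

lemma aug_surj (t : ℕ) : Function.Surjective (aug m t).hom := by
  have : Epi (aug m t) := inferInstanceAs (Epi ((P m t).π.f 0))
  exact (ModuleCat.epi_iff_surjective _).1 this

lemma aug_ex (t : ℕ) (a : (P m t).complex.X 0) (ha : (aug m t).hom a = 0) :
    ∃ x, ((P m t).complex.d 1 0).hom x = a := by
  have hex := (P m t).exact₀
  rw [ShortComplex.moduleCat_exact_iff] at hex
  exact hex a ha

lemma d_aug (t : ℕ) : (P m t).complex.d 1 0 ≫ aug m t = 0 := (P m t).complex_d_comp_π_f_zero

/-- the map `R / m ^ t → M` sending `1` to `z` -/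
def pt {M : ModuleCat.{0} R} (t : ℕ) (z : M) (hz : ∀ r ∈ m ^ t, r • z = 0) : Qt m t ⟶ M :=
  ModuleCat.ofHom (Submodule.liftQ (m ^ t) (LinearMap.toSpanSingleton R M z) fun r hr =>
    hz r hr)

lemma pt_mk {M : ModuleCat.{0} R} (t : ℕ) (z : M) (hz : ∀ r ∈ m ^ t, r • z = 0) (r : R) :
    (pt m t z hz).hom (Submodule.Quotient.mk r) = r • z := rfl

lemma h0_surj {B D : ModuleCat.{0} R} (v : B ⟶ D) (hv : Function.Surjective v.hom)
    (hB : Tors m B) (y : C m 0 D) (hy : dd m 0 D y = 0) :
    ∃ b, dd m 0 B b = 0 ∧ cmap m 0 v b = y := by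
  obtain ⟨t, c, rfl, hc⟩ := cocycle_rep m y hy
  obtain ⟨p, hp⟩ := aug_surj m t (Submodule.Quotient.mk 1)
  obtain ⟨j, hj⟩ := hv (c.hom p)
  obtain ⟨n, hn⟩ := hB j
  have hs : ∀ r ∈ m ^ (max n t), r • j = 0 := fun r hr =>
    hn r (Ideal.pow_le_pow_right (le_max_left _ _) hr)
  have key : ∀ a r, (aug m t).hom a = Submodule.Quotient.mk r → c.hom a = r • c.hom p := by
    intro a r h
    obtain ⟨x, hx⟩ := aug_ex m t (a - r • p) (by
      rw [map_sub, map_smul, h, hp, ← Submodule.Quotient.mk_smul]; simp)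
    have h2 : c.hom (a - r • p) = 0 := by
      rw [← hx]
      have := congrArg (fun g : (P m t).complex.X 1 ⟶ D => g.hom x) hc
      simpa using this
    rwa [map_sub, map_smul, sub_eq_zero] at h2
  refine ⟨cof m (max n t) (aug m _ ≫ pt m _ j hs), ?_, ?_⟩
  · rw [dd_cof, ← Category.assoc, d_aug, Limits.zero_comp, map_zero]
  · rw [cmap_cof, ← cof_lam m (le_max_right n t) c]
    congr 1
    ext a
    obtain ⟨r, hr⟩ := Submodule.Quotient.mk_surjective _ ((aug m (max n t)).hom a)
    have h1 := congrArg (fun g : (P m (max n t)).complex.X 0 ⟶ Qt m t => g.hom a)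
      (lam_comm m (le_max_right n t))
    simp only [ModuleCat.hom_comp, LinearMap.coe_comp, Function.comp_apply] at h1 ⊢
    rw [← hr, qm_mk] at h1
    rw [key _ r h1, ← hr, pt_mk, map_smul, hj]

/-- the torsion submodule -/
def Gam (M : Type) [AddCommGroup M] [Module R M] : Submodule R M where
  carrier := {z | ∃ n : ℕ, ∀ r ∈ m ^ n, r • z = 0}
  zero_mem' := ⟨0, fun r _ => smul_zero r⟩
  add_mem' := by
    rintro a b ⟨n, hn⟩ ⟨k, hk⟩
    refine ⟨max n k, fun r hr => ?_⟩
    rw [smul_add, hn r (Ideal.pow_le_pow_right (le_max_left _ _) hr),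
      hk r (Ideal.pow_le_pow_right (le_max_right _ _) hr), add_zero]
  smul_mem' := by
    rintro c a ⟨n, hn⟩
    exact ⟨n, fun r hr => by rw [smul_comm, hn r hr, smul_zero]⟩

lemma Gam_injective [IsNoetherianRing R] (I : Type) [AddCommGroup I] [Module R I]
    [hI : Module.Injective R I] : Module.Injective R (Gam m I) := by
  refine Module.Baer.injective fun a g => ?_
  -- uniform exponent
  obtain ⟨n, hn⟩ : ∃ n : ℕ, ∀ x : a, ∀ r ∈ m ^ n, r • (g x : I) = 0 := by
    obtain ⟨k, s, hs⟩ := Module.Finite.exists_fin (R := R) (M := a)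
    choose e he using fun j => (g (s j)).2
    refine ⟨Finset.univ.sup e, fun x r hr => ?_⟩
    have hx : x ∈ Submodule.span R (Set.range s) := hs ▸ Submodule.mem_top
    induction hx using Submodule.span_induction with
    | mem y hy =>
      obtain ⟨j, rfl⟩ := hy
      exact he j r (Ideal.pow_le_pow_right (Finset.le_sup (Finset.mem_univ j)) hr)
    | zero => simp
    | add y z _ _ hy hz => rw [map_add, Submodule.coe_add, smul_add, hy, hz, add_zero]
    | smul c y _ hy => rw [map_smul, Submodule.coe_smul, smul_comm, hy, smul_zero]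
  obtain ⟨k, hk⟩ := Ideal.exists_pow_inf_eq_pow_smul m (a : Submodule R R)
  have hker : ∀ x : a, (x : R) ∈ m ^ (k + n) → (g x : I) = 0 := by
    intro x hx
    have h1 : (x : R) ∈ m ^ (k + n) • (⊤ : Submodule R R) ⊓ a := by
      refine ⟨?_, x.2⟩
      simpa using hx
    rw [hk (k + n) (by omega), Nat.add_sub_cancel_left] at h1
    have h2 : (x : R) ∈ m ^ n • (a : Submodule R R) :=
      Submodule.smul_mono le_rfl inf_le_right h1
    have : ∀ y (hy : y ∈ m ^ n • (a : Submodule R R)), ∀ hy' : y ∈ a, (g ⟨y, hy'⟩ : I) = 0 := by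
      intro y hy
      induction hy using Submodule.smul_induction_on' with
      | smul r hr z hz =>
        intro hy'
        have : (⟨r • z, hy'⟩ : a) = r • ⟨z, hz⟩ := rfl
        rw [this, map_smul, Submodule.coe_smul]
        exact hn _ r hr
      | add y hy z hz ihy ihz =>
        intro hy'
        have hy1 : y ∈ a := Submodule.smul_le_right hy
        have hz1 : z ∈ a := Submodule.smul_le_right hz
        have : (⟨y + z, hy'⟩ : a) = ⟨y, hy1⟩ + ⟨z, hz1⟩ := rfl
        rw [this, map_add, Submodule.coe_add, ihy, ihz, add_zero]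
    exact this x h2 x.2
  let d : a →ₗ[R] R ⧸ m ^ (k + n) := (m ^ (k + n)).mkQ ∘ₗ a.subtype
  have hk' : LinearMap.ker d ≤ LinearMap.ker ((Gam m I).subtype ∘ₗ g) := by
    intro x hx
    refine hker x ?_
    simpa [d, Submodule.Quotient.mk_eq_zero, Ideal.Quotient.eq_zero_iff_mem] using hx
  let c' : LinearMap.range d →ₗ[R] I :=
    ((LinearMap.ker d).liftQ _ hk') ∘ₗ d.quotKerEquivRange.symm.toLinearMap
  obtain ⟨b, hb⟩ := hI.out (LinearMap.range d).subtype Subtype.val_injective c'
  have hmem : ∀ r : R, (b ∘ₗ (m ^ (k + n)).mkQ) r ∈ Gam m I := by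
    intro r
    refine ⟨k + n, fun s hs => ?_⟩
    rw [← map_smul]
    have : (m ^ (k + n)).mkQ (s • r) = 0 := by
      rw [Submodule.mkQ_apply, Submodule.Quotient.mk_eq_zero]
      exact Ideal.mul_mem_right _ _ hs
    simp only [LinearMap.coe_comp, Function.comp_apply, this, map_zero]
  refine ⟨(b ∘ₗ (m ^ (k + n)).mkQ).codRestrict _ hmem, fun x hx => ?_⟩
  ext
  have := hb ⟨d ⟨x, hx⟩, _, rfl⟩
  simp only [Submodule.subtype_apply, c', LinearMap.coe_comp, Function.comp_apply,
    LinearEquiv.coe_coe, LinearMap.quotKerEquivRange_symm_apply_image, Submodule.mkQ_apply,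
    Submodule.liftQ_apply] at this
  exact this

lemma exists_tors_embed [IsNoetherianRing R] (M : ModuleCat.{0} R) (hM : Tors m M) :
    ∃ (J D : ModuleCat.{0} R) (u : M ⟶ J) (v : J ⟶ D), SES u v ∧ Module.Injective R J ∧
      Tors m J ∧ Tors m D := by
  let I := Injective.under M
  have hI : Module.Injective R I := (Module.injective_iff_injective_object R I).2 (Injective.injective_under M)
  let ι : M ⟶ I := Injective.ι M
  have hι : Function.Injective ι.hom := (ModuleCat.mono_iff_injective ι).1 inferInstance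
  have hmem : ∀ z, ι.hom z ∈ Gam m I := by
    intro z
    obtain ⟨n, hn⟩ := hM z
    exact ⟨n, fun r hr => by rw [← map_smul, hn r hr, map_zero]⟩
  let u : M →ₗ[R] Gam m I := ι.hom.codRestrict _ hmem
  have hJ : Tors m (ModuleCat.of R (Gam m I)) := by
    intro z
    obtain ⟨n, hn⟩ := z.2
    exact ⟨n, fun r hr => Subtype.ext (hn r hr)⟩
  refine ⟨ModuleCat.of R (Gam m I), ModuleCat.of R (Gam m I ⧸ LinearMap.range u),
    ModuleCat.ofHom u, ModuleCat.ofHom (LinearMap.range u).mkQ, ⟨?_, ?_, ?_⟩,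
    Gam_injective m I, hJ, ?_⟩
  · intro a b h
    exact hι (congrArg Subtype.val h)
  · exact LinearMap.exact_map_mkQ_range u
  · exact Submodule.mkQ_surjective _
  · intro z
    obtain ⟨z, rfl⟩ := Submodule.mkQ_surjective _ z
    obtain ⟨n, hn⟩ := hJ z
    refine ⟨n, fun r hr => ?_⟩
    have := congrArg (LinearMap.range u).mkQ (hn r hr)
    simpa using this

theorem van_tors [IsNoetherianRing R] (i : ℕ) (M : ModuleCat.{0} R) (hM : Tors m M) :
    Van m (i + 1) M := by
  induction i generalizing M with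
  | zero =>
    obtain ⟨J, D, u, v, h, hJ, tJ, tD⟩ := exists_tors_embed m M hM
    intro x hx
    obtain ⟨b, hb⟩ := van_injective m J 0 (cmap m 1 u x) (by rw [dd_cmap, hx, map_zero])
    obtain ⟨b0, h0, h1⟩ := h0_surj m v h.surj tJ (cmap m 0 v b)
      (by rw [dd_cmap, hb, cmap_cmap m h])
    refine chase0 m h x (b - b0) (by rw [map_sub, h0, hb, sub_zero]) ?_
    rw [map_sub, h1, sub_self]
    exact Submodule.zero_mem _
  | succ i ih =>
    obtain ⟨J, D, u, v, h, hJ, tJ, tD⟩ := exists_tors_embed m M hM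
    exact van_left m h (van_injective m J (i + 1)) (ih D tD)

end Pool.Agent.H493Z.FI
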