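import Pool.Agent.H493Z.FI.Defs
import Pool.Agent.H493Z.FI.Tors

set_option autoImplicit false

open CategoryTheory

noncomputable section

namespace Pool.Agent.H493Z.FI

variable {R : Type} [CommRing R] [CharP R 2] (m : Ideal R)

abbrev FF (R : Type) [CommRing R] [CharP R 2] : ModuleCat.{0} R ⥤ ModuleCat.{0} R :=
  ModuleCat.restrictScalars (frobenius R 2)

abbrev MI (I : Ideal R) : ModuleCat.{0} R := ModuleCat.of R (R ⧸ I)

lemma two_quot (I : Ideal R) : (2 : R ⧸ I) = 0 := by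
  have : (2 : R ⧸ I) = Ideal.Quotient.mk I 2 := (map_ofNat _ 2).symm
  rw [this, CharTwo.two_eq_zero, map_zero]

def phi (I : Ideal R) : MI I ⟶ (FF R).obj (MI I) :=
  ModuleCat.ofHom (Y := (FF R).obj (MI I))
    { toFun := fun a => (a ^ 2 : R ⧸ I)
      map_add' := fun a b => by
        have : ((a + b) ^ 2 : R ⧸ I) = a ^ 2 + b ^ 2 := by
          linear_combination a * b * two_quot I
        exact this
      map_smul' := fun r a => by
        have : ((r • a) ^ 2 : R ⧸ I) = (r ^ 2) • a ^ 2 := smul_pow _ _ _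
        exact this }

lemma SES.frob {A B D : ModuleCat.{0} R} {u : A ⟶ B} {v : B ⟶ D} (h : SES u v) :
    SES ((FF R).map u) ((FF R).map v) := ⟨h.inj, h.ex, h.surj⟩

def Good (n : ℕ) {M : ModuleCat.{0} R} (φ : M ⟶ (FF R).obj M) : Prop :=
  (∀ i, i ≠ n → Van m i M ∧ Van m i ((FF R).obj M)) ∧ ∀ i, Inj m i φ

section prod
variable {M N : ModuleCat.{0} R}

def phiProd (φ : M ⟶ (FF R).obj M) (ψ : N ⟶ (FF R).obj N) :
    ModuleCat.of R (M × N) ⟶ (FF R).obj (ModuleCat.of R (M × N)) :=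
  ModuleCat.ofHom (Y := (FF R).obj (ModuleCat.of R (M × N)))
    { toFun := fun a => ((φ.hom a.1, ψ.hom a.2) : M × N)
      map_add' := fun a b => Prod.ext (φ.hom.map_add a.1 b.1) (ψ.hom.map_add a.2 b.2)
      map_smul' := fun r a => Prod.ext (φ.hom.map_smul r a.1) (ψ.hom.map_smul r a.2) }

omit [CharP R 2] in
lemma ses_prod : SES (ModuleCat.ofHom (LinearMap.inl R M N)) (ModuleCat.ofHom (LinearMap.snd R M N)) :=
  ⟨LinearMap.inl_injective, Function.Exact.inl_snd, LinearMap.snd_surjective⟩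

lemma good_prod {n : ℕ} {φ : M ⟶ (FF R).obj M} {ψ : N ⟶ (FF R).obj N} (h1 : Good m n φ)
    (h2 : Good m n ψ) : Good m n (phiProd φ ψ) := by
  refine ⟨fun i hi => ⟨van_mid m ses_prod (h1.1 i hi).1 (h2.1 i hi).1,
    van_mid m ses_prod.frob (h1.1 i hi).2 (h2.1 i hi).2⟩, fun i x hx hφ => ?_⟩
  let p1 : ModuleCat.of R (M × N) ⟶ M := ModuleCat.ofHom (LinearMap.fst R M N)
  let p2 : ModuleCat.of R (M × N) ⟶ N := ModuleCat.ofHom (LinearMap.snd R M N)
  let i1 : M ⟶ ModuleCat.of R (M × N) := ModuleCat.ofHom (LinearMap.inl R M N)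
  let i2 : N ⟶ ModuleCat.of R (M × N) := ModuleCat.ofHom (LinearMap.inr R M N)
  have e1 : p1 ≫ φ = phiProd φ ψ ≫ (FF R).map p1 := rfl
  have e2 : p2 ≫ ψ = phiProd φ ψ ≫ (FF R).map p2 := rfl
  have a1 : cmap m i p1 x ∈ Bd m i M := by
    refine h1.2 i _ (by rw [dd_cmap, hx, map_zero]) ?_
    rw [← cmap_comp, e1, cmap_comp]
    exact cmap_Bd m _ hφ
  have a2 : cmap m i p2 x ∈ Bd m i N := by
    refine h2.2 i _ (by rw [dd_cmap, hx, map_zero]) ?_
    rw [← cmap_comp, e2, cmap_comp]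
    exact cmap_Bd m _ hφ
  have e3 : p1 ≫ i1 + p2 ≫ i2 = 𝟙 _ := by
    ext <;> simp [p1, p2, i1, i2]
  rw [← cmap_id m x, ← e3, cmap_add, cmap_comp, cmap_comp]
  exact Submodule.add_mem _ (cmap_Bd m _ a1) (cmap_Bd m _ a2)

end prod

/-- the projection between quotients -/
def fac {I K : Ideal R} (h : I ≤ K) : MI I ⟶ MI K :=
  ModuleCat.ofHom (Ideal.Quotient.factorₐ R h).toLinearMap

omit [CharP R 2] in
lemma fac_mk {I K : Ideal R} (h : I ≤ K) (r : R) :
    (fac h).hom (Ideal.Quotient.mk I r) = Ideal.Quotient.mk K r := rfl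

lemma phi_inj (I : Ideal R) (hI : I.IsPrime) : Function.Injective (phi I).hom := by
  rw [injective_iff_map_eq_zero]
  intro a ha
  exact pow_eq_zero_iff (M₀ := R ⧸ I) two_ne_zero |>.1 ha

theorem good_zero [IsNoetherianRing R] (hm : m.IsPrime) : Good m 0 (phi m) := by
  have t1 : Tors m (MI m) := by
    intro z
    refine ⟨1, fun r hr => ?_⟩
    obtain ⟨z, rfl⟩ := Ideal.Quotient.mk_surjective z
    rw [pow_one] at hr
    exact Ideal.Quotient.eq_zero_iff_mem.2 (m.mul_mem_right z hr)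
  have t2 : Tors m ((FF R).obj (MI m)) := by
    intro z
    refine ⟨1, fun r hr => ?_⟩
    obtain ⟨z, rfl⟩ := Ideal.Quotient.mk_surjective (I := m) z
    rw [pow_one] at hr
    exact Ideal.Quotient.eq_zero_iff_mem.2 (m.mul_mem_right z (m.pow_mem_of_mem hr 2 (by omega)))
  refine ⟨fun i hi => ?_, fun i => ?_⟩
  · obtain ⟨i, rfl⟩ := Nat.exists_eq_succ_of_ne_zero hi
    exact ⟨van_tors m i _ t1, van_tors m i _ t2⟩
  · cases i with
    | zero => exact inj_zero m _ (phi_inj m hm)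
    | succ i => exact (van_tors m i _ t1).inj m _

omit [CharP R 2] in
lemma ses_def (I : Ideal R) (hI : I.IsPrime) {f : R} (hfI : f ∉ I) :
    SES (f • 𝟙 (MI I)) (fac (le_sup_left : I ≤ I ⊔ Ideal.span {f})) := by
  refine ⟨?_, ?_, ?_⟩
  · rw [injective_iff_map_eq_zero]
    intro a ha
    obtain ⟨a, rfl⟩ := Ideal.Quotient.mk_surjective a
    have : f * a ∈ I := Ideal.Quotient.eq_zero_iff_mem.1 ha
    exact Ideal.Quotient.eq_zero_iff_mem.2 ((hI.mem_or_mem this).resolve_left hfI)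
  · intro a
    obtain ⟨a, rfl⟩ := Ideal.Quotient.mk_surjective a
    rw [fac_mk, Ideal.Quotient.eq_zero_iff_mem]
    constructor
    · intro h
      obtain ⟨y, hy, z, hz, rfl⟩ := Submodule.mem_sup.1 h
      obtain ⟨c, rfl⟩ := Ideal.mem_span_singleton'.1 hz
      refine ⟨Ideal.Quotient.mk I c, ?_⟩
      show Ideal.Quotient.mk I (f * c) = _
      rw [Ideal.Quotient.eq]
      simpa [mul_comm] using hy
    · rintro ⟨c, hc⟩
      obtain ⟨c, rfl⟩ := Ideal.Quotient.mk_surjective c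
      have h : f * c - a ∈ I := Ideal.Quotient.eq.1 hc
      have : a = -(f * c - a) + c * f := by ring
      rw [this]
      exact Submodule.add_mem_sup (I.neg_mem h) (Ideal.mem_span_singleton'.2 ⟨c, rfl⟩)
  · intro a
    obtain ⟨a, rfl⟩ := Ideal.Quotient.mk_surjective a
    exact ⟨Ideal.Quotient.mk I a, rfl⟩

lemma fac_phi {I K : Ideal R} (h : I ≤ K) : fac h ≫ phi K = phi I ≫ (FF R).map (fac h) := by
  apply ModuleCat.hom_ext
  apply LinearMap.ext
  intro a
  obtain ⟨a, rfl⟩ := Ideal.Quotient.mk_surjective a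
  rfl

theorem good_def (I : Ideal R) (hI : I.IsPrime) {f : R} (hf : f ∈ m) (hfI : f ∉ I) {n : ℕ}
    (h : Good m n (phi (I ⊔ Ideal.span {f}))) : Good m (n + 1) (phi I) := by
  have s1 := ses_def I hI hfI
  have g1 : (f • 𝟙 (MI I)) ≫ (f • 𝟙 (MI I)) = (f * f) • 𝟙 (MI I) := by
    simp [smul_smul]
  have g2 : (FF R).map (f • 𝟙 (MI I)) ≫ (FF R).map (f • 𝟙 (MI I)) = f • 𝟙 ((FF R).obj (MI I)) := by
    apply ModuleCat.hom_ext
    apply LinearMap.ext
    intro (a : R ⧸ I)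
    show f • f • a = (f ^ 2) • a
    rw [smul_smul, pow_two]
  have hv : ∀ i, i ≠ n + 1 → Van m i (MI I) ∧ Van m i ((FF R).obj (MI I)) := by
    intro i hi
    cases i with
    | zero => exact ⟨van_deform0 m s1 (m.mul_mem_left f hf) g1, van_deform0 m s1.frob hf g2⟩
    | succ i =>
      exact ⟨van_deform m s1 (m.mul_mem_left f hf) g1 (h.1 i (by omega)).1,
        van_deform m s1.frob hf g2 (h.1 i (by omega)).2⟩
  refine ⟨hv, fun i => ?_⟩
  by_cases hi : i = n + 1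
  · subst hi
    exact inj_deform m hf s1 s1.frob g2 (fac_phi _) (h.2 n) (hv n (by omega)).2
  · exact (hv i hi).1.inj m _

def mvU (I K : Ideal R) : MI (I ⊓ K) ⟶ ModuleCat.of R (MI I × MI K) :=
  ModuleCat.ofHom (LinearMap.prod (fac inf_le_left).hom (fac inf_le_right).hom)

def mvV (I K : Ideal R) : ModuleCat.of R (MI I × MI K) ⟶ MI (I ⊔ K) :=
  ModuleCat.ofHom (LinearMap.coprod (fac le_sup_left).hom (-(fac le_sup_right).hom))

omit [CharP R 2] in
lemma ses_mv (I K : Ideal R) : SES (mvU I K) (mvV I K) := by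
  refine ⟨?_, ?_, ?_⟩
  · rw [injective_iff_map_eq_zero]
    intro a ha
    obtain ⟨a, rfl⟩ := Ideal.Quotient.mk_surjective a
    exact Ideal.Quotient.eq_zero_iff_mem.2
      ⟨Ideal.Quotient.eq_zero_iff_mem.1 (congrArg Prod.fst ha),
        Ideal.Quotient.eq_zero_iff_mem.1 (congrArg Prod.snd ha)⟩
  · rintro ⟨a, b⟩
    obtain ⟨a, rfl⟩ := Ideal.Quotient.mk_surjective a
    obtain ⟨b, rfl⟩ := Ideal.Quotient.mk_surjective b
    have e : (mvV I K).hom (Ideal.Quotient.mk I a, Ideal.Quotient.mk K b) =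
        Ideal.Quotient.mk (I ⊔ K) (a - b) := by
      rw [map_sub, sub_eq_add_neg]; rfl
    rw [e, Ideal.Quotient.eq_zero_iff_mem]
    constructor
    · intro h
      obtain ⟨y, hy, z, hz, e⟩ := Submodule.mem_sup.1 h
      refine ⟨Ideal.Quotient.mk _ (a - y), Prod.ext ?_ ?_⟩
      · exact Ideal.Quotient.eq.2 (by simpa using hy)
      · refine Ideal.Quotient.eq.2 ?_
        have : a - y - b = z := by linear_combination -e
        rwa [this]
    · rintro ⟨c, hc⟩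
      obtain ⟨c, rfl⟩ := Ideal.Quotient.mk_surjective c
      have h1 : c - a ∈ I := Ideal.Quotient.eq.1 (congrArg Prod.fst hc)
      have h2 : c - b ∈ K := Ideal.Quotient.eq.1 (congrArg Prod.snd hc)
      have : a - b = -(c - a) + (c - b) := by ring
      rw [this]
      exact Submodule.add_mem_sup (I.neg_mem h1) h2
  · intro a
    obtain ⟨a, rfl⟩ := Ideal.Quotient.mk_surjective a
    refine ⟨(Ideal.Quotient.mk I a, 0), ?_⟩
    show (fac le_sup_left).hom (Ideal.Quotient.mk I a) + (-(fac le_sup_right).hom) 0 = _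
    rw [map_zero, add_zero, fac_mk]

lemma mv_c1 (I K : Ideal R) :
    mvU I K ≫ phiProd (phi I) (phi K) = phi (I ⊓ K) ≫ (FF R).map (mvU I K) := by
  apply ModuleCat.hom_ext
  apply LinearMap.ext
  intro a
  obtain ⟨a, rfl⟩ := Ideal.Quotient.mk_surjective a
  rfl

lemma mv_c2 (I K : Ideal R) :
    mvV I K ≫ phi (I ⊔ K) = phiProd (phi I) (phi K) ≫ (FF R).map (mvV I K) := by
  apply ModuleCat.hom_ext
  apply LinearMap.ext
  rintro ⟨a, b⟩
  obtain ⟨a, rfl⟩ := Ideal.Quotient.mk_surjective a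
  obtain ⟨b, rfl⟩ := Ideal.Quotient.mk_surjective b
  show (Ideal.Quotient.mk (I ⊔ K) a + -Ideal.Quotient.mk (I ⊔ K) b) ^ 2 =
    Ideal.Quotient.mk (I ⊔ K) a ^ 2 + -(Ideal.Quotient.mk (I ⊔ K) b ^ 2)
  linear_combination (Ideal.Quotient.mk (I ⊔ K) b ^ 2 -
    Ideal.Quotient.mk (I ⊔ K) a * Ideal.Quotient.mk (I ⊔ K) b) * two_quot (I ⊔ K)

lemma mv_inj0 (I K : Ideal R) (h : Inj m 0 (phiProd (phi I) (phi K))) :
    Inj m 0 (phi (I ⊓ K)) := by
  intro x hx hφ
  refine cmap_inj m _ (ses_mv I K).inj x (h _ (by rw [dd_cmap, hx, map_zero]) ?_)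
  rw [← cmap_comp, mv_c1, cmap_comp]
  exact cmap_Bd m _ hφ

theorem good_mv (I K : Ideal R) {n : ℕ} (h1 : Good m (n + 1) (phi I))
    (h2 : Good m (n + 1) (phi K)) (h3 : Good m n (phi (I ⊔ K))) :
    Good m (n + 1) (phi (I ⊓ K)) := by
  have hp := good_prod m h1 h2
  have s := ses_mv I K
  have hv : ∀ i, i ≠ n + 1 → Van m i (MI (I ⊓ K)) ∧ Van m i ((FF R).obj (MI (I ⊓ K))) := by
    intro i hi
    cases i with
    | zero => exact ⟨van_left0 m s (hp.1 0 hi).1, van_left0 m s.frob (hp.1 0 hi).2⟩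
    | succ i =>
      exact ⟨van_left m s (hp.1 _ hi).1 (h3.1 i (by omega)).1,
        van_left m s.frob (hp.1 _ hi).2 (h3.1 i (by omega)).2⟩
  refine ⟨hv, fun i => ?_⟩
  by_cases hi : i = n + 1
  · subst hi
    exact inj_left m s s.frob (mv_c1 I K) (mv_c2 I K) (hp.2 _) (h3.2 _)
      (Or.inl (hp.1 n (by omega)).2)
  · exact (hv i hi).1.inj m _

theorem inj_mv (I K : Ideal R) {n k : ℕ} (hnk : n ≠ k) (h1 : Good m n (phi I))
    (h2 : Good m n (phi K)) (h3 : Good m k (phi (I ⊔ K))) (i : ℕ) : Inj m i (phi (I ⊓ K)) := by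
  have hp := good_prod m h1 h2
  have s := ses_mv I K
  cases i with
  | zero => exact mv_inj0 m I K (hp.2 0)
  | succ i =>
    refine inj_left m s s.frob (mv_c1 I K) (mv_c2 I K) (hp.2 _) (h3.2 _) ?_
    by_cases hi : i = n
    · exact Or.inr (h3.1 i (by omega)).1
    · exact Or.inl (hp.1 i hi).2

theorem inj_of_bot (I : Ideal R) (hI : I = ⊥) (i : ℕ) (h : Inj m i (phi I)) :
    Inj m i (frobHom 2 R) := by
  subst hI
  let π : ModuleCat.of R R ⟶ MI ⊥ := ModuleCat.ofHom (Submodule.mkQ ⊥)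
  let ρ : MI (⊥ : Ideal R) ⟶ ModuleCat.of R R :=
    ModuleCat.ofHom (Submodule.liftQ ⊥ LinearMap.id bot_le)
  have e1 : π ≫ ρ = 𝟙 _ := rfl
  have e2 : π ≫ phi ⊥ = frobHom 2 R ≫ (FF R).map π := by
    apply ModuleCat.hom_ext
    apply LinearMap.ext
    intro a
    rfl
  intro x hx hφ
  rw [← cmap_id m x, ← e1, cmap_comp]
  refine cmap_Bd m _ (h _ (by rw [dd_cmap, hx, map_zero]) ?_)
  rw [← cmap_comp, e2, cmap_comp]
  exact cmap_Bd m _ hφ

end Pool.Agent.H493Z.FI
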