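import Pool.Agent.H493Z.FI.Good
import Pool.Agent.H493Z.FI.Bridge
import Pool.Agent.H721Z.FC.Main

set_option autoImplicit false

open CategoryTheory MvPolynomial
open Pool.Agent.H721Z.FC

noncomputable section

namespace Pool.Agent.H493Z.FI

abbrev mm : Ideal R := IsLocalRing.maximalIdeal R

def IsQ (σ : S →ₐ[ZMod 2] S) (Q : Ideal R) : Prop := Q.IsPrime ∧ ∀ f, pr f ∈ Q ↔ σ f = 0

lemma sub_mem_span (σ : S →ₐ[ZMod 2] S) (f : S) :
    f - σ f ∈ Ideal.span (Set.range fun n => X n - σ (X n)) := by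
  induction f using MvPolynomial.induction_on with
  | C a =>
    have : σ (MvPolynomial.C a) = MvPolynomial.C a := σ.commutes a
    rw [this, sub_self]; exact Ideal.zero_mem _
  | add p q hp hq =>
    have := Ideal.add_mem _ hp hq
    rw [map_add]; convert this using 1; ring
  | mul_X p n hp =>
    have h1 : X n - σ (X n) ∈ Ideal.span (Set.range fun n => X n - σ (X n)) :=
      Ideal.subset_span ⟨n, rfl⟩
    have := Ideal.add_mem _ (Ideal.mul_mem_right (X n) _ hp) (Ideal.mul_mem_left _ (σ p) h1)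
    rw [map_mul]; convert this using 1; ring

lemma pr_sub_mem (σ : S →ₐ[ZMod 2] S) (K : Ideal R) (h : ∀ n, pr (X n - σ (X n)) ∈ K) (f : S) :
    pr (f - σ f) ∈ K := by
  have : Ideal.span (Set.range fun n => X n - σ (X n)) ≤ K.comap pr := by
    rw [Ideal.span_le]
    rintro _ ⟨n, rfl⟩
    exact h n
  exact this (sub_mem_span σ f)

lemma IsQ.le {σ : S →ₐ[ZMod 2] S} {Q : Ideal R} (hQ : IsQ σ Q) (K : Ideal R)
    (h : ∀ n, pr (X n - σ (X n)) ∈ K) : Q ≤ K := by
  refine le_of_pr fun f hf => ?_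
  have := pr_sub_mem σ K h f
  rwa [(hQ.2 f).1 hf, sub_zero] at this

def kill1 (j : Fin 6) : S →ₐ[ZMod 2] S := aeval fun n => if n = j then 0 else X n

lemma cc_kill1 (j : Fin 6) (f : S) : constantCoeff (kill1 j f) = constantCoeff f := by
  refine cc_aeval _ (fun n => ?_) f
  split_ifs <;> simp

theorem good_sub (T : Finset (Fin 6)) : ∀ (σ : S →ₐ[ZMod 2] S) (Q : Ideal R), IsQ σ Q →
    (∀ f, constantCoeff (σ f) = constantCoeff f) → (∀ f ∈ J, σ f = 0) →
    (∀ j ∈ T, σ (X j) = X j) →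
    (∀ f, σ f ∈ Algebra.adjoin (ZMod 2) (X '' (T : Set (Fin 6)) : Set S)) →
    Good mm T.card (phi Q) := by
  induction T using Finset.induction_on with
  | empty =>
    intro σ Q hQ hc hJ _ hr
    have : Q = mm := by
      have key : ∀ f, pr f ∈ Q ↔ pr f ∈ mm := by
        intro f
        rw [hQ.2, pr_mem_max]
        have h1 := hr f
        simp only [Finset.coe_empty, Set.image_empty, Algebra.adjoin_empty] at h1
        obtain ⟨c, hc'⟩ := Algebra.mem_bot.1 h1
        rw [← hc f, ← hc']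
        simp
      exact le_antisymm (le_of_pr fun f => (key f).1) (le_of_pr fun f => (key f).2)
    rw [this]
    exact good_zero mm inferInstance
  | insert j T hj ih =>
    intro σ Q hQ hc hJ hfix hr
    let σ' : S →ₐ[ZMod 2] S := (kill1 j).comp σ
    have hc' : ∀ f, constantCoeff (σ' f) = constantCoeff f := fun f => by
      rw [AlgHom.comp_apply, cc_kill1, hc]
    have hJ' : ∀ f ∈ J, σ' f = 0 := fun f hf => by rw [AlgHom.comp_apply, hJ f hf, map_zero]
    obtain ⟨Q', hQ'⟩ := exists_prime σ' hc' hJ'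
    have hidem : ∀ f, σ (σ f) = σ f := by
      intro f
      have := (AlgHom.eqOn_adjoin_iff (φ := σ) (ψ := AlgHom.id _ _)
        (s := (X '' ((insert j T : Finset (Fin 6)) : Set (Fin 6)) : Set S))).2 (by
          rintro _ ⟨i, hi, rfl⟩
          exact hfix i hi)
      exact this (hr f)
    have hXj : σ (X j) = X j := hfix j (Finset.mem_insert_self _ _)
    have e : Q ⊔ Ideal.span {pr (X j)} = Q' := by
      refine le_antisymm (sup_le (le_of_pr fun f hf => ?_) ?_) (le_of_pr fun f hf => ?_)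
      · rw [hQ'.2, AlgHom.comp_apply, (hQ.2 f).1 hf, map_zero]
      · rw [Ideal.span_le, Set.singleton_subset_iff, SetLike.mem_coe, hQ'.2, AlgHom.comp_apply,
          hXj]
        simp [kill1]
      · have h1 : pr (f - σ f) ∈ Q := by rw [hQ.2, map_sub, hidem, sub_self]
        have h2 := pr_sub_mem (kill1 j) (Ideal.span {pr (X j)}) (fun n => by
          by_cases h : n = j
          · simp [kill1, h]
          · simp [kill1, h]) (σ f)
        have h3 : kill1 j (σ f) = 0 := (hQ'.2 f).1 hf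
        rw [h3, sub_zero] at h2
        have : pr f = pr (f - σ f) + pr (σ f) := by rw [← map_add]; congr 1; ring
        rw [this]
        exact Submodule.add_mem_sup h1 h2
    have h0 : Good mm T.card (phi Q') := by
      refine ih σ' Q' hQ' hc' hJ' (fun i hi => ?_) (fun f => ?_)
      · have : i ≠ j := fun h => hj (h ▸ hi)
        rw [AlgHom.comp_apply, hfix i (Finset.mem_insert_of_mem hi)]
        simp [kill1, this]
      · have h1 : Algebra.adjoin (ZMod 2) (X '' ((insert j T : Finset (Fin 6)) : Set (Fin 6)) : Set S)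
            ≤ (Algebra.adjoin (ZMod 2) (X '' (T : Set (Fin 6)) : Set S)).comap (kill1 j) := by
          rw [Algebra.adjoin_le_iff]
          rintro _ ⟨i, hi, rfl⟩
          rw [SetLike.mem_coe, Subalgebra.mem_comap]
          by_cases h : i = j
          · simp [kill1, h]
          · have hi' : i ∈ T := by simpa [h] using hi
            simp only [kill1, aeval_X, h, if_false]
            exact Algebra.subset_adjoin ⟨i, hi', rfl⟩
        exact h1 (hr f)
    rw [Finset.card_insert_of_notMem hj]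
    refine good_def mm Q hQ.1 (f := pr (X j)) ((pr_mem_max _).2 (by simp)) ?_ (e ▸ h0)
    rw [hQ.2, hXj]
    exact X_ne_zero _

theorem good_aeval (T : Finset (Fin 6)) (v : Fin 6 → S) (h0 : ∀ n, constantCoeff (v n) = 0)
    (i : Fin 4) (hi : ∀ n, aeval v (sv i n) = v n) (hfix : ∀ j ∈ T, v j = X j)
    (hr : ∀ n, v n ∈ Algebra.adjoin (ZMod 2) (X '' (T : Set (Fin 6)) : Set S)) :
    ∃ Q, IsQ (aeval v) Q ∧ Good mm T.card (phi Q) := by
  have hJ : ∀ f ∈ J, aeval v f = 0 := by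
    intro f hf
    have : (aeval v : S →ₐ[ZMod 2] S).comp (sg i) = aeval v := by
      ext1 n
      rw [AlgHom.comp_apply, sg, aeval_X, aeval_X, hi]
    rw [← this, AlgHom.comp_apply, (mem_J f).1 hf i, map_zero]
  obtain ⟨Q, hQ⟩ := exists_prime (aeval v) (cc_aeval v h0) hJ
  refine ⟨Q, hQ, good_sub T _ Q hQ (cc_aeval v h0) hJ (fun j hj => by simp [hfix j hj]) ?_⟩
  intro f
  induction f using MvPolynomial.induction_on with
  | C a => rw [aeval_C]; exact Subalgebra.algebraMap_mem _ a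
  | add p q hp hq => rw [map_add]; exact Subalgebra.add_mem _ hp hq
  | mul_X p n hp => rw [map_mul, aeval_X]; exact Subalgebra.mul_mem _ hp (hr n)

lemma X_adj {T : Finset (Fin 6)} {j : Fin 6} (h : j ∈ T) :
    (X j : S) ∈ Algebra.adjoin (ZMod 2) (X '' (T : Set (Fin 6)) : Set S) :=
  Algebra.subset_adjoin ⟨j, h, rfl⟩

def w : Fin 11 → Fin 6 → S :=
  ![![X 0, X 1, X 2, X 3, 0, 0], ![0, X 1, X 2, 0, X 4, X 5],
    ![0, X 2 ^ 2, X 2, X 3, X 4, X 5], ![X 0, 0, X 2, 0, X 4, X 5],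
    ![0, X 2 ^ 2, X 2, 0, X 4, X 5], ![0, 0, X 2, 0, X 4, X 5],
    ![0, X 1, X 2, 0, 0, 0], ![0, X 2 ^ 2, X 2, X 3, 0, 0], ![X 0, 0, X 2, 0, 0, 0],
    ![0, X 2 ^ 2, X 2, 0, 0, 0], ![0, 0, X 2, 0, 0, 0]]

def wT : Fin 11 → Finset (Fin 6) :=
  ![{0, 1, 2, 3}, {1, 2, 4, 5}, {2, 3, 4, 5}, {0, 2, 4, 5}, {2, 4, 5}, {2, 4, 5},
    {1, 2}, {2, 3}, {0, 2}, {2}, {2}]

def wi : Fin 11 → Fin 4 := ![0, 1, 2, 3, 1, 1, 0, 0, 0, 0, 0]

lemma exQ (k : Fin 11) : ∃ Q, IsQ (aeval (w k)) Q ∧ Good mm (wT k).card (phi Q) := by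
  refine good_aeval (wT k) (w k) (fun n => ?_) (wi k) (fun n => ?_) (fun j hj => ?_) (fun n => ?_)
  · fin_cases k <;> fin_cases n <;> simp [w]
  · fin_cases k <;> fin_cases n <;> simp [w, wi, sv]
  · fin_cases k <;> fin_cases j <;> first | rfl | (exfalso; revert hj; decide)
  · fin_cases k <;> fin_cases n <;>
      first
        | exact Subalgebra.zero_mem _
        | exact X_adj (by decide)
        | exact Subalgebra.pow_mem _ (X_adj (by decide)) 2

lemma mv3 (a b c d e : Fin 11) (Q : Fin 11 → Ideal R) (hQ : ∀ k, IsQ (aeval (w k)) (Q k))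
    (h1 : ∀ n, aeval (w d) (X n - w a n) = 0) (h2 : ∀ n, aeval (w d) (X n - w b n) = 0)
    (h3 : ∀ n, aeval (w a) (X n - w d n) = 0 ∨ aeval (w b) (X n - w d n) = 0)
    (h4 : ∀ n, aeval (w e) (X n - w a n) = 0) (h5 : ∀ n, aeval (w e) (X n - w c n) = 0)
    (h6 : ∀ n, (aeval (w a) (X n - w e n) = 0 ∧ aeval (w b) (X n - w e n) = 0) ∨
      aeval (w c) (X n - w e n) = 0) {k : ℕ}
    (ga : Good mm (k + 1) (phi (Q a))) (gb : Good mm (k + 1) (phi (Q b)))
    (gc : Good mm (k + 1) (phi (Q c))) (gd : Good mm k (phi (Q d))) (ge : Good mm k (phi (Q e))) :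
    Good mm (k + 1) (phi (Q a ⊓ Q b ⊓ Q c)) := by
  have e1 : Q a ⊔ Q b = Q d := by
    refine le_antisymm (sup_le ((hQ a).le _ fun n => ?_) ((hQ b).le _ fun n => ?_))
      ((hQ d).le _ fun n => ?_)
    · rw [(hQ d).2, aeval_X]; exact h1 n
    · rw [(hQ d).2, aeval_X]; exact h2 n
    · rw [aeval_X]
      rcases h3 n with h | h
      · exact Ideal.mem_sup_left (((hQ a).2 _).2 h)
      · exact Ideal.mem_sup_right (((hQ b).2 _).2 h)
  have e2 : Q a ⊓ Q b ⊔ Q c = Q e := by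
    refine le_antisymm (sup_le (inf_le_left.trans ((hQ a).le _ fun n => ?_))
      ((hQ c).le _ fun n => ?_)) ((hQ e).le _ fun n => ?_)
    · rw [(hQ e).2, aeval_X]; exact h4 n
    · rw [(hQ e).2, aeval_X]; exact h5 n
    · rw [aeval_X]
      rcases h6 n with h | h
      · exact Ideal.mem_sup_left ⟨((hQ a).2 _).2 h.1, ((hQ b).2 _).2 h.2⟩
      · exact Ideal.mem_sup_right (((hQ c).2 _).2 h)
  exact good_mv mm _ _ (good_mv mm _ _ ga gb (e1 ▸ gd)) gc (e2 ▸ ge)

theorem inj_frob (i : ℕ) : Inj mm i (frobHom 2 R) := by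
  choose Q hQ hG using exQ
  have gB : Good mm 4 (phi (Q 1 ⊓ Q 2 ⊓ Q 3)) := by
    refine mv3 1 2 3 4 5 Q hQ ?_ ?_ ?_ ?_ ?_ ?_ (hG 1) (hG 2) (hG 3) (hG 4) (hG 5) <;>
      intro n <;> fin_cases n <;> simp [w]
  have gC : Good mm 2 (phi (Q 6 ⊓ Q 7 ⊓ Q 8)) := by
    refine mv3 6 7 8 9 10 Q hQ ?_ ?_ ?_ ?_ ?_ ?_ (hG 6) (hG 7) (hG 8) (hG 9) (hG 10) <;>
      intro n <;> fin_cases n <;> simp [w]
  have le0 : ∀ a b : Fin 11, (∀ n, aeval (w b) (X n - w a n) = 0) → Q a ≤ Q b := by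
    intro a b h
    refine (hQ a).le _ fun n => ?_
    rw [(hQ b).2, aeval_X]; exact h n
  have e1 : Q 0 ⊔ (Q 1 ⊓ Q 2 ⊓ Q 3) = Q 6 ⊓ Q 7 ⊓ Q 8 := by
    refine le_antisymm (sup_le (le_inf (le_inf (le0 _ _ ?_) (le0 _ _ ?_)) (le0 _ _ ?_))
      (inf_le_inf (inf_le_inf (le0 _ _ ?_) (le0 _ _ ?_)) (le0 _ _ ?_))) (le_of_pr fun f hf => ?_)
    rotate_right
    · have h1 : pr (f - aeval (w 0) f) ∈ Q 0 :=
        pr_sub_mem _ _ (fun n => by rw [(hQ 0).2]; fin_cases n <;> simp [w]) f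
      have hc : ∀ a b : Fin 11, (∀ n, aeval (w a) (w 0 n) = w b n) → pr f ∈ Q b →
          pr (aeval (w 0) f) ∈ Q a := by
        intro a b h hb
        have : (aeval (w a) : S →ₐ[ZMod 2] S).comp (aeval (w 0)) = aeval (w b) := by
          ext1 n
          rw [AlgHom.comp_apply, aeval_X, aeval_X, h]
        rw [(hQ a).2, ← AlgHom.comp_apply, this]
        exact ((hQ b).2 f).1 hb
      have h2 : pr (aeval (w 0) f) ∈ Q 1 ⊓ Q 2 ⊓ Q 3 := by
        refine ⟨⟨hc 1 6 ?_ hf.1.1, hc 2 7 ?_ hf.1.2⟩, hc 3 8 ?_ hf.2⟩ <;>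
          intro n <;> fin_cases n <;> simp [w]
      have : pr f = pr (f - aeval (w 0) f) + pr (aeval (w 0) f) := by
        rw [← map_add]; congr 1; ring
      rw [this]
      exact Submodule.add_mem_sup h1 h2
    all_goals intro n; fin_cases n <;> simp [w]
  have e2 : Q 0 ⊓ (Q 1 ⊓ Q 2 ⊓ Q 3) = ⊥ := by
    refine le_antisymm (le_of_pr fun f hf => ?_) bot_le
    rw [Ideal.mem_bot, pr_eq_zero, mem_J]
    intro j
    fin_cases j
    · exact ((hQ 0).2 f).1 hf.1
    · exact ((hQ 1).2 f).1 hf.2.1.1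
    · exact ((hQ 2).2 f).1 hf.2.1.2
    · exact ((hQ 3).2 f).1 hf.2.2
  exact inj_of_bot mm _ e2 i (inj_mv mm _ _ (n := 4) (k := 2) (by omega) (hG 0) gB (e1 ▸ gC) i)

theorem fInjective : FInjective 2 R := fun i => injective_of_inj mm i _ (inj_frob i)

@[reducible] def algR : Algebra (ZMod 2) R :=
  ((algebraMap (S ⧸ J) R).comp (algebraMap (ZMod 2) (S ⧸ J))).toAlgebra

theorem essFT : @Algebra.EssFiniteType (ZMod 2) R _ _ algR := by
  letI := algR
  haveI : @IsScalarTower (ZMod 2) (S ⧸ J) R Algebra.toSMul Algebra.toSMul Algebra.toSMul :=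
    IsScalarTower.of_algebraMap_eq fun _ => rfl
  haveI : Algebra.EssFiniteType (S ⧸ J) R := Algebra.EssFiniteType.of_isLocalization R m0.primeCompl
  exact Algebra.EssFiniteType.comp (ZMod 2) (S ⧸ J) R

end Pool.Agent.H493Z.FI
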